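import Pool.Agent.Helper15.DAK.Stmts

/-!
# Row ORD: calculus of orders of operators
-/

set_option autoImplicit false

namespace Pool.Agent.Helper15.DAK.S1

open Pool.Agent.Helper15.DAF

variable {F : Type} [Field F] [Algebra ℂ F]

theorem mulOp_app (a f : F) : mulOp a f = a * f := rfl

theorem mulOp_comm (a b : F) : mulOp b * mulOp a - mulOp a * mulOp b = 0 := by
  ext f
  change b * (a * f) - a * (b * f) = 0
  ring

theorem ord_zero_op (m : ℕ) : Ord m (0 : Module.End ℂ F) := by
  induction m with
  | zero =>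
    intro a
    rw [zero_mul, mul_zero, sub_zero]
  | succ m ih =>
    intro a
    rw [zero_mul, mul_zero, sub_zero]
    exact ih

theorem ord_succ (m : ℕ) : ∀ P : Module.End ℂ F, Ord m P → Ord (m + 1) P := by
  induction m with
  | zero =>
    intro P hP a
    rw [hP a]
    exact ord_zero_op 0
  | succ m ih =>
    intro P hP a
    exact ih _ (hP a)

theorem ord_le (m k : ℕ) (P : Module.End ℂ F) (h : m ≤ k) (hP : Ord m P) : Ord k P := by
  obtain ⟨j, rfl⟩ := Nat.exists_eq_add_of_le h
  clear h
  induction j with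
  | zero => exact hP
  | succ j ih => exact ord_succ (m + j) P ih

theorem ord_add (m : ℕ) : ∀ P Q : Module.End ℂ F, Ord m P → Ord m Q → Ord m (P + Q) := by
  induction m with
  | zero =>
    intro P Q hP hQ a
    have e : (P + Q) * mulOp a - mulOp a * (P + Q) =
        (P * mulOp a - mulOp a * P) + (Q * mulOp a - mulOp a * Q) := by
      rw [add_mul, mul_add]
      abel
    rw [e, hP a, hQ a, add_zero]
  | succ m ih =>
    intro P Q hP hQ a
    have e : (P + Q) * mulOp a - mulOp a * (P + Q) =
        (P * mulOp a - mulOp a * P) + (Q * mulOp a - mulOp a * Q) := by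
      rw [add_mul, mul_add]
      abel
    rw [e]
    exact ih _ _ (hP a) (hQ a)

theorem smul_comm_mul (c : ℂ) (P R : Module.End ℂ F) :
    c • P * R - R * (c • P) = c • (P * R - R * P) := by
  ext f
  change c • P (R f) - R (c • P f) = c • (P (R f) - R (P f))
  rw [map_smul, smul_sub]

theorem ord_smul (m : ℕ) : ∀ (c : ℂ) (P : Module.End ℂ F), Ord m P → Ord m (c • P) := by
  induction m with
  | zero =>
    intro c P hP a
    rw [smul_comm_mul, hP a, smul_zero]
  | succ m ih =>
    intro c P hP a
    rw [smul_comm_mul]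
    exact ih c _ (hP a)

theorem comm_mul (P Q R : Module.End ℂ F) :
    P * Q * R - R * (P * Q) = P * (Q * R - R * Q) + (P * R - R * P) * Q := by
  rw [mul_sub, sub_mul, mul_assoc, mul_assoc, mul_assoc]
  abel

theorem ord_mul (n : ℕ) : ∀ (m k : ℕ) (P Q : Module.End ℂ F), m + k = n → Ord m P → Ord k Q →
    Ord n (P * Q) := by
  induction n with
  | zero =>
    intro m k P Q hn hP hQ a
    have hm : m = 0 := by omega
    have hk : k = 0 := by omega
    subst hm
    subst hk
    rw [comm_mul, hP a, hQ a, mul_zero, zero_mul, add_zero]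
  | succ n ih =>
    intro m k P Q hn hP hQ a
    rw [comm_mul]
    refine ord_add n _ _ ?_ ?_
    · cases k with
      | zero =>
        rw [hQ a, mul_zero]
        exact ord_zero_op n
      | succ k => exact ih m k P _ (by omega) hP (hQ a)
    · cases m with
      | zero =>
        rw [hP a, zero_mul]
        exact ord_zero_op n
      | succ m => exact ih m k _ Q (by omega) (hP a) hQ

theorem ord_mulOp (a : F) : Ord 0 (mulOp a) := fun b => mulOp_comm b a

theorem ord_der (d : Module.End ℂ F) (hd : IsDer d) : Ord 1 d := by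
  intro a
  have e : d * mulOp a - mulOp a * d = mulOp (d a) := by
    ext f
    change d (a * f) - a * d f = d a * f
    rw [hd a f]
    ring
  rw [e]
  exact ord_mulOp (d a)

theorem ord_DK (P : Module.End ℂ F) (hP : P ∈ DK F) : ∃ m, Ord m P := by
  unfold DK at hP
  induction hP using Algebra.adjoin_induction with
  | mem P hP =>
    rcases hP with ⟨a, rfl⟩ | hd
    · exact ⟨0, ord_mulOp a⟩
    · exact ⟨1, ord_der P hd⟩
  | algebraMap c =>
    refine ⟨0, fun a => ?_⟩
    rw [Algebra.commutes, sub_self]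
  | add P Q _ _ hP hQ =>
    obtain ⟨m, hm⟩ := hP
    obtain ⟨k, hk⟩ := hQ
    exact ⟨max m k, ord_add _ _ _ (ord_le _ _ _ (le_max_left _ _) hm)
      (ord_le _ _ _ (le_max_right _ _) hk)⟩
  | mul P Q _ _ hP hQ =>
    obtain ⟨m, hm⟩ := hP
    obtain ⟨k, hk⟩ := hQ
    exact ⟨m + k, ord_mul (m + k) m k P Q rfl hm hk⟩

end Pool.Agent.Helper15.DAK.S1

namespace Pool.Agent.Helper15.DAK

theorem st_ORD : ST_ORD := by
  intro F _ _
  exact ⟨fun a => S1.ord_mulOp a, fun d hd => S1.ord_der d hd, fun m k P h hP => S1.ord_le m k P h hP,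
    fun m P Q hP hQ => S1.ord_add m P Q hP hQ, fun m c P hP => S1.ord_smul m c P hP,
    fun m k P Q hP hQ => S1.ord_mul (m + k) m k P Q rfl hP hQ, fun P hP => S1.ord_DK P hP⟩

end Pool.Agent.Helper15.DAK
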